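import Pool.Agent.helper90.KS.Spec

/-!
# KS, module HE: embedding from heavy pairs (helper92)
-/

set_option autoImplicit false

open scoped BigOperators

namespace Pool.Agent.KS

open Pool.Agent.helper23.TH

noncomputable section

open Classical

theorem HE_symm {V X : Type} (p q : V → X) (x y : V) (h : Co p q x y) : Co p q y x := by
  unfold Co at h ⊢
  rcases h with h | h
  · exact Or.inl h.symm
  · exact Or.inr h.symm

theorem HE (hGR : GR_stmt) (hNL : NL_stmt) : HE_stmt := by
  intro s t V X _ A p q hPG hf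
  obtain ⟨f, hf⟩ := hf
  have hdeg : ∀ v, deg A v ≤ Fintype.card V := fun v => Finset.card_le_univ _
  have h2 := (hNL V X A p q (Fintype.card V) 0 hPG hdeg).1
  set u : Fin s → V := fun i => f (Fin.castAdd t i) with hu
  set v : Fin t → V := fun j => f (Fin.natAdd s j) with hv
  have hne : ∀ (i : Fin s) (j : Fin t), Fin.castAdd t i ≠ Fin.natAdd s j := by
    intro i j h0
    have h1 := congrArg Fin.val h0
    simp only [Fin.val_castAdd, Fin.val_natAdd] at h1
    have := i.2
    omega
  set Y : Fin s × Fin t → Finset V := fun x => Finset.univ.filter fun m =>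
    (A (u x.1) m ∧ A (v x.2) m) ∧ ∀ a, ¬ Co p q m (f a) with hY
  have hcard : ∀ x : Fin s × Fin t, 2 * Fintype.card (Fin s × Fin t) < (Y x).card := by
    intro x
    have h3 := (hf _ _ (hne x.1 x.2)).2
    have h4 : cd A (u x.1) (v x.2) ≤ (Y x).card + ∑ _a : Fin (s + t), 2 := by
      have h5 : (Finset.univ.filter fun m => A (u x.1) m ∧ A (v x.2) m) ⊆
          Y x ∪ Finset.univ.biUnion fun a => Finset.univ.filter fun m =>
            A (u x.1) m ∧ Co p q m (f a) := by
        intro m hm
        rw [Finset.mem_filter] at hm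
        rw [Finset.mem_union]
        by_cases h6 : ∀ a, ¬ Co p q m (f a)
        · left
          rw [hY, Finset.mem_filter]
          exact ⟨Finset.mem_univ _, hm.2, h6⟩
        · right
          push Not at h6
          obtain ⟨a, ha⟩ := h6
          rw [Finset.mem_biUnion]
          refine ⟨a, Finset.mem_univ _, ?_⟩
          rw [Finset.mem_filter]
          exact ⟨Finset.mem_univ _, hm.2.1, ha⟩
      unfold cd
      refine (Finset.card_le_card h5).trans ((Finset.card_union_le _ _).trans ?_)
      apply Nat.add_le_add_left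
      refine Finset.card_biUnion_le.trans (Finset.sum_le_sum fun a _ => ?_)
      exact h2 _ _
    rw [Finset.sum_const, Finset.card_univ, Fintype.card_fin, smul_eq_mul] at h4
    rw [Fintype.card_prod, Fintype.card_fin, Fintype.card_fin]
    unfold C0 at h3
    have h5 : 2 * (s + t) + 2 * s * t + 1 ≤ (Y x).card + (s + t) * 2 := h3.trans h4
    have h6 : 2 * (s * t) = 2 * s * t := by ring
    omega
  obtain ⟨g, hg1, hg2⟩ := hGR (Fin s × Fin t) V Y (Co p q) 2 (HE_symm p q) (by
    intro x x' _ y _
    refine le_trans (Finset.card_le_card ?_) (h2 (u x.1) y)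
    intro m hm
    rw [Finset.mem_filter, hY, Finset.mem_filter] at hm
    rw [Finset.mem_filter]
    exact ⟨Finset.mem_univ _, hm.1.2.1.1, hm.2⟩) hcard
  have hg3 : ∀ x, (A (u x.1) (g x) ∧ A (v x.2) (g x)) ∧ ∀ a, ¬ Co p q (g x) (f a) := by
    intro x
    have := hg1 x
    rw [hY, Finset.mem_filter] at this
    exact this.2
  refine ⟨u, v, fun i j => g (i, j), ?_, ?_, ?_, ?_, ?_, ?_, ?_⟩
  · intro i j
    exact ⟨(hg3 (i, j)).1.1, hPG.symm _ _ (hg3 (i, j)).1.2⟩
  · intro i i' hii
    exact (hf _ _ fun h0 => hii (Fin.castAdd_injective s t h0)).1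
  · intro j j' hjj
    exact (hf _ _ fun h0 => hjj (Fin.natAdd_injective t s h0)).1
  · intro i j
    exact (hf _ _ (hne i j)).1
  · intro i i' j h0
    exact (hg3 (i', j)).2 _ (HE_symm p q _ _ h0)
  · intro i j j' h0
    exact (hg3 (i, j')).2 _ (HE_symm p q _ _ h0)
  · intro i i' j j' hij
    exact hg2 _ _ hij

end

end Pool.Agent.KS
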